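import Pool.Agent.helper58.FI.SpecC

/-!
# Row fi:FNO of project fi (MP_baa4d7_al): all chains and normal chains
-/

set_option autoImplicit false

namespace Pool.Agent.FI

open Pool.Agent.helper58.DC Pool.Agent.DI Pool.Agent.GR Pool.Agent.OB Pool.Agent.DR

theorem FNO (hFNR : FNR_stmt) (hA3 : A3_stmt) (hA5 : A5_stmt) : FNO_stmt := by
  intro Γ _ _ p _ L P N g
  revert L N
  refine WellFounded.induction (r := (· > ·)) (C := fun P : Subgroup Γ => ∀ L N : Subgroup Γ, IsPGroup p P → P ≤ L →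
    cSum p L P N g = ∑ᶠ C ∈ {C : Finset (Subgroup Γ) | NCh p L P C}, (-1) ^ (C.card + 1) * g (N ⊓ nrm C))
    (wellFounded_gt (α := Subgroup Γ)) P ?_
  intro P ih L N hP hL
  have hPL : P ≤ L ⊓ nz P := le_inf hL Subgroup.le_normalizer
  rw [hFNR Γ p L P N g hP hL, hA3 Γ p L P N g, hA5 Γ p (L ⊓ nz P) P N g hP hPL]
  congr 1
  refine finsum_mem_congr rfl fun P₁ h => ?_
  exact ih P₁ h.1 (L ⊓ nz P) (N ⊓ nz P) h.2.2 h.2.1

end Pool.Agent.FI
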