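import Pool.Agent.helper36.HK.SpecN
import Pool.Agent.Lib.SievePrimes

/-!
# Row FL2: a fundamental lemma of dimension two from the Brun-Hooley sieve
-/

set_option autoImplicit false

namespace Pool.Agent.FI

open Finset Pool.Agent.Lib.BrunHooley

lemma FL2_bpar (b r i : ℕ) (hir : i ≤ r) : bpar (26 + b) r i = bpar (Z 2 + 5 * 2) (r + b) i := by
  have : Z 2 = 16 := by norm_num [Z]
  unfold bpar
  rw [this]
  omega

lemma FL2_es_div_le (ω : ℕ → ℝ) (hω0 : ∀ p, 0 ≤ ω p) (hω : ∀ p, ω p ≤ 2) (b r i : ℕ) (hir : i ≤ r) :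
    es (blk i) (fun p => ω p / p) (bpar (26 + b) r i + 1) / ∏ p ∈ blk i, (1 - ω p / p)
      ≤ (1 / 4) * (1 / 16) ^ (r - i) * (1 / 16) ^ b := by
  have h := es_div_le 2 ω hω0 (by simpa using hω) (r + b) i (by omega)
  rw [← FL2_bpar b r i hir] at h
  refine h.trans (le_of_eq ?_)
  rw [show r + b - i = (r - i) + b by omega, pow_add]
  ring

lemma FL2_sum_es_div_le (ω : ℕ → ℝ) (hω0 : ∀ p, 0 ≤ ω p) (hω : ∀ p, ω p ≤ 2) (b r : ℕ) :
    ∑ i ∈ range (r + 1), es (blk i) (fun p => ω p / p) (bpar (26 + b) r i + 1)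
      / ∏ p ∈ blk i, (1 - ω p / p) ≤ (1 / 2) * (1 / 16) ^ b := by
  calc _ ≤ ∑ i ∈ range (r + 1), (1 / 4 : ℝ) * (1 / 16) ^ (r - i) * (1 / 16) ^ b :=
        sum_le_sum fun i hi => FL2_es_div_le ω hω0 hω b r i (by have := mem_range.mp hi; omega)
    _ = ((1 / 4 : ℝ) * ∑ i ∈ range (r + 1), (1 / 16) ^ i) * (1 / 16) ^ b := by
        rw [← sum_mul, ← mul_sum, ← sum_range_reflect (fun i => (1 / 16 : ℝ) ^ i)]
        congr 2
    _ ≤ ((1 / 4 : ℝ) * (1 - 1 / 16)⁻¹) * (1 / 16) ^ b := by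
        refine mul_le_mul_of_nonneg_right ?_ (by positivity)
        refine mul_le_mul_of_nonneg_left ?_ (by norm_num)
        rw [geom_sum_eq (by norm_num), div_le_iff_of_neg (by norm_num)]
        norm_num
    _ ≤ _ := by
        refine mul_le_mul_of_nonneg_right ?_ (by positivity)
        norm_num

lemma FL2_exp_le {t : ℝ} (h0 : 0 ≤ t) (h1 : t ≤ 1 / 2) : Real.exp t ≤ 1 + 2 * t := by
  have h2 := Real.one_sub_le_exp_neg t
  have h3 : Real.exp t * Real.exp (-t) = 1 := by rw [← Real.exp_add]; simp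
  have h4 : Real.exp t * (1 - t) ≤ 1 := by
    have := mul_le_mul_of_nonneg_left h2 (Real.exp_pos t).le
    linarith
  have h5 : Real.exp t ≤ 1 / (1 - t) := by
    rw [le_div_iff₀ (by linarith)]; exact h4
  refine h5.trans ?_
  rw [div_le_iff₀ (by linarith)]
  nlinarith

/-- **Fundamental lemma, abstract form, dimension two.** -/
theorem FL2_fund (b r : ℕ) {α : Type*} (A : Finset α) (a : α → ℝ)
    (h : ℕ → α → ℝ) (X : ℝ) (ω : ℕ → ℝ) (ha : ∀ n ∈ A, 0 ≤ a n) (h0 : ∀ p, ∀ n ∈ A, 0 ≤ h p n)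
    (h1 : ∀ p, ∀ n ∈ A, h p n ≤ 1) (hX : 0 ≤ X) (hω0 : ∀ p, 0 ≤ ω p) (hω : ∀ p, ω p ≤ 2)
    (hωp : ∀ p : ℕ, p.Prime → ω p < p)
    (hA : ∀ D ⊆ Nat.primesLE (Z r), |∑ n ∈ A, a n * ∏ p ∈ D, h p n - X * ∏ p ∈ D, (ω p / p)|
      ≤ ∏ p ∈ D, ω p) :
    (1 - (1 / 4 : ℝ) ^ b) * X * ∏ p ∈ Nat.primesLE (Z r), (1 - ω p / p)
        - (Z r : ℝ) ^ (300 * (b + 1))
      ≤ ∑ n ∈ A, a n * ∏ p ∈ Nat.primesLE (Z r), (1 - h p n) ∧
    ∑ n ∈ A, a n * ∏ p ∈ Nat.primesLE (Z r), (1 - h p n)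
      ≤ (1 + (1 / 4 : ℝ) ^ b) * X * ∏ p ∈ Nat.primesLE (Z r), (1 - ω p / p)
        + (Z r : ℝ) ^ (300 * (b + 1)) := by
  set B := 26 + b with hB
  set P := blk with hP
  set s := range (r + 1) with hs
  set g : ℕ → ℝ := fun p => ω p / (p : ℝ) with hg
  have hdisj : ∀ j ∈ s, ∀ k ∈ s, j ≠ k → Disjoint (P j) (P k) :=
    fun j _ k _ => blk_pairwise j k
  have hg0 : ∀ j ∈ s, ∀ p ∈ P j, 0 ≤ g p :=
    fun _ _ p _ => div_nonneg (hω0 p) (Nat.cast_nonneg p)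
  have hg1 : ∀ j ∈ s, ∀ p ∈ P j, g p < 1 := by
    intro j _ p hp
    have hpp := mem_blk_prime hp
    rw [hg]
    simp only
    rw [div_lt_one (by exact_mod_cast hpp.pos)]
    exact hωp p hpp
  have hb : ∀ j ∈ s, Even (bpar B r j) := fun j _ => ⟨B + (r - j), by unfold bpar; ring⟩
  have hA' : ∀ D ⊆ s.biUnion P,
      |∑ n ∈ A, a n * ∏ p ∈ D, h p n - X * ∏ p ∈ D, g p| ≤ ∏ p ∈ D, ω p := by
    rw [biUnion_blk]; exact hA
  have hprod : ∀ f : ℕ → ℝ, ∏ p ∈ Nat.primesLE (Z r), f p = ∏ j ∈ s, ∏ p ∈ P j, f p := by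
    intro f
    rw [← biUnion_blk, prod_biUnion]
    intro i _ j _ hij
    exact blk_pairwise i j hij
  set e : ℝ := (1 / 2) * (1 / 16) ^ b with he
  have he0 : 0 ≤ e := by positivity
  have hpow1 : (1 / 16 : ℝ) ^ b ≤ 1 := pow_le_one₀ (by norm_num) (by norm_num)
  have hpow2 : (1 / 16 : ℝ) ^ b ≤ (1 / 4) ^ b := pow_le_pow_left₀ (by norm_num) (by norm_num) b
  have he1 : e ≤ 1 / 2 := by rw [he]; linarith
  have hE : ∑ i ∈ s, es (P i) g (bpar B r i + 1) / ∏ p ∈ P i, (1 - g p) ≤ e :=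
    FL2_sum_es_div_le ω hω0 hω b r
  have hV0 : ∀ j ∈ s, 0 < ∏ p ∈ P j, (1 - g p) := fun j hj =>
    prod_pos fun p hp => by linarith [hg1 j hj p hp]
  have hE0 : ∀ j ∈ s, 0 ≤ es (P j) g (bpar B r j + 1) := fun j hj => es_nonneg _ _ (hg0 j hj) _
  have hVY : ∀ j ∈ s, ∏ p ∈ P j, (1 - g p) ≤ ts (P j) g (bpar B r j) := by
    intro j hj
    have := (bonferroni (P j) g (hg0 j hj) (fun p hp => (hg1 j hj p hp).le) (bpar B r j)).1
    rw [(hb j hj).neg_one_pow] at this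
    linarith
  have hY0 : ∀ j ∈ s, 0 < ts (P j) g (bpar B r j) := fun j hj => (hV0 j hj).trans_le (hVY j hj)
  have hYV : ∀ j ∈ s, ts (P j) g (bpar B r j) ≤ (∏ p ∈ P j, (1 - g p))
      * Real.exp (es (P j) g (bpar B r j + 1) / ∏ p ∈ P j, (1 - g p)) := by
    intro j hj
    have := (bonferroni (P j) g (hg0 j hj) (fun p hp => (hg1 j hj p hp).le) (bpar B r j)).2
    rw [(hb j hj).neg_one_pow] at this
    have h2 := Real.add_one_le_exp (es (P j) g (bpar B r j + 1) / ∏ p ∈ P j, (1 - g p))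
    have h3 := mul_le_mul_of_nonneg_left h2 (hV0 j hj).le
    have h4 : (∏ p ∈ P j, (1 - g p)) * (es (P j) g (bpar B r j + 1) / ∏ p ∈ P j, (1 - g p) + 1)
        = es (P j) g (bpar B r j + 1) + ∏ p ∈ P j, (1 - g p) := by
      have := (hV0 j hj).ne'
      field_simp
    linarith
  have hVpos : 0 < ∏ j ∈ s, ∏ p ∈ P j, (1 - g p) := prod_pos hV0
  have hVle : ∏ j ∈ s, ∏ p ∈ P j, (1 - g p) ≤ ∏ j ∈ s, ts (P j) g (bpar B r j) :=
    prod_le_prod (fun j hj => (hV0 j hj).le) hVY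
  have keyU : ∏ j ∈ s, ts (P j) g (bpar B r j)
      ≤ (1 + (1 / 4 : ℝ) ^ b) * ∏ j ∈ s, ∏ p ∈ P j, (1 - g p) := by
    calc ∏ j ∈ s, ts (P j) g (bpar B r j) ≤ ∏ j ∈ s, ((∏ p ∈ P j, (1 - g p))
          * Real.exp (es (P j) g (bpar B r j + 1) / ∏ p ∈ P j, (1 - g p))) :=
          prod_le_prod (fun j hj => (hV0 j hj).le.trans (hVY j hj)) hYV
      _ = (∏ j ∈ s, ∏ p ∈ P j, (1 - g p))
          * Real.exp (∑ j ∈ s, es (P j) g (bpar B r j + 1) / ∏ p ∈ P j, (1 - g p)) := by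
          rw [prod_mul_distrib, Real.exp_sum]
      _ ≤ (∏ j ∈ s, ∏ p ∈ P j, (1 - g p)) * (1 + (1 / 4 : ℝ) ^ b) := by
          refine mul_le_mul_of_nonneg_left ?_ hVpos.le
          refine (Real.exp_le_exp.mpr hE).trans ((FL2_exp_le he0 he1).trans ?_)
          rw [he]; linarith
      _ = _ := by ring
  have keyL : (1 - (1 / 4 : ℝ) ^ b) * ∏ j ∈ s, ∏ p ∈ P j, (1 - g p) ≤
      ∏ j ∈ s, ts (P j) g (bpar B r j)
        - ∑ l ∈ s, es (P l) g (bpar B r l + 1) * ∏ j ∈ s.erase l, ts (P j) g (bpar B r j) := by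
    have e1 : ∀ l ∈ s, es (P l) g (bpar B r l + 1) * ∏ j ∈ s.erase l, ts (P j) g (bpar B r j)
        ≤ (es (P l) g (bpar B r l + 1) / ∏ p ∈ P l, (1 - g p))
          * ∏ j ∈ s, ts (P j) g (bpar B r j) := by
      intro l hl
      rw [← mul_prod_erase s _ hl, ← mul_assoc]
      refine mul_le_mul_of_nonneg_right ?_ (prod_nonneg fun j hj => (hY0 j (erase_subset _ _ hj)).le)
      rw [div_mul_eq_mul_div, le_div_iff₀ (hV0 l hl)]
      exact mul_le_mul_of_nonneg_left (hVY l hl) (hE0 l hl)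
    have e2 := sum_le_sum e1
    rw [← sum_mul] at e2
    have hPY : 0 < ∏ j ∈ s, ts (P j) g (bpar B r j) := prod_pos hY0
    have e4 : (∑ i ∈ s, es (P i) g (bpar B r i + 1) / ∏ p ∈ P i, (1 - g p))
        * ∏ j ∈ s, ts (P j) g (bpar B r j) ≤ e * ∏ j ∈ s, ts (P j) g (bpar B r j) :=
      mul_le_mul_of_nonneg_right hE hPY.le
    have e5 : (1 - e) * ∏ j ∈ s, ∏ p ∈ P j, (1 - g p)
        ≤ (1 - e) * ∏ j ∈ s, ts (P j) g (bpar B r j) :=
      mul_le_mul_of_nonneg_left hVle (by linarith)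
    have e6 : (1 - (1 / 4 : ℝ) ^ b) * ∏ j ∈ s, ∏ p ∈ P j, (1 - g p)
        ≤ (1 - e) * ∏ j ∈ s, ∏ p ∈ P j, (1 - g p) := by
      refine mul_le_mul_of_nonneg_right ?_ hVpos.le
      rw [he]
      have : 0 ≤ (1 / 16 : ℝ) ^ b := by positivity
      linarith
    linarith
  -- the error terms
  have hω' : ∀ p, ω p ≤ (2 : ℕ) := by simpa using hω
  have hZ1 : (1 : ℝ) ≤ Z r := by exact_mod_cast Z_pos r
  have hW0 : ∀ j, 0 ≤ ∑ p ∈ P j, ω p := fun j => sum_nonneg fun p _ => hω0 p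
  have herr : ∏ j ∈ s, (1 + ∑ p ∈ P j, ω p) ^ bpar B r j ≤ (Z r : ℝ) ^ (2 * (4 * B + 4)) := by
    calc ∏ j ∈ s, (1 + ∑ p ∈ P j, ω p) ^ bpar B r j
        ≤ ∏ j ∈ s, ((Z j : ℝ) ^ 2) ^ bpar B r j := by
          refine prod_le_prod (fun j _ => ?_) (fun j _ => ?_)
          · have := hW0 j
            positivity
          · have := hW0 j
            have h2 := err_le 2 ω hω' j
            gcongr
      _ = (2 : ℝ) ^ (2 * ∑ j ∈ s, 2 ^ j * (2 * (B + (r - j)))) := by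
          rw [mul_sum, ← prod_pow_eq_pow_sum]
          refine prod_congr rfl fun j _ => ?_
          rw [Z, bpar]
          push_cast
          rw [← pow_mul, ← pow_mul]
          congr 1
          ring
      _ ≤ (2 : ℝ) ^ (2 * (2 ^ r * (4 * B + 4))) :=
          pow_le_pow_right₀ (by norm_num) (Nat.mul_le_mul_left _ (weighted_sum_le B r))
      _ = _ := by
          rw [Z]; push_cast; rw [← pow_mul]; congr 1; ring
  have hsum : 1 + ∑ l ∈ s, (1 + ∑ p ∈ P l, ω p) ≤ (Z r : ℝ) ^ 3 := by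
    have e1 : ∑ l ∈ s, (1 + ∑ p ∈ P l, ω p) ≤ ∑ _l ∈ s, (Z r : ℝ) ^ 2 := by
      refine sum_le_sum fun l hl => (err_le 2 ω hω' l).trans ?_
      gcongr
      have := mem_range.mp hl
      exact_mod_cast Z_mono (by omega)
    rw [sum_const, card_range, nsmul_eq_mul] at e1
    have e2 : ((r : ℝ) + 2) ≤ Z r := by
      have h1 : r + 1 ≤ 2 ^ r := Nat.lt_two_pow_self
      have h2 : r + 1 + 1 ≤ 2 ^ (r + 1) := Nat.lt_two_pow_self
      have h3 : 2 ^ (r + 1) ≤ Z r := Nat.pow_le_pow_right (by norm_num) h1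
      exact_mod_cast (by omega : r + 2 ≤ Z r)
    have e3 : (1 : ℝ) ≤ (Z r : ℝ) ^ 2 := one_le_pow₀ hZ1
    calc 1 + ∑ l ∈ s, (1 + ∑ p ∈ P l, ω p) ≤ (Z r : ℝ) ^ 2 + (r + 1 : ℕ) * (Z r : ℝ) ^ 2 := by
          linarith
      _ = (Z r : ℝ) ^ 2 * ((r : ℝ) + 2) := by push_cast; ring
      _ ≤ (Z r : ℝ) ^ 2 * Z r := by gcongr
      _ = _ := by rw [← pow_succ]
  have hM : ∀ j ∈ s, ∑ i ∈ range (bpar B r j + 1), es (P j) ω i
      ≤ (1 + ∑ p ∈ P j, ω p) ^ bpar B r j := fun j _ => sum_es_le _ _ (fun p _ => hω0 p) _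
  have hM0 : ∀ j ∈ s, 0 ≤ ∑ i ∈ range (bpar B r j + 1), es (P j) ω i := fun j _ =>
    sum_nonneg fun i _ => es_nonneg _ _ (fun p _ => hω0 p) _
  have herrU : ∏ j ∈ s, ∑ i ∈ range (bpar B r j + 1), es (P j) ω i
      ≤ (Z r : ℝ) ^ (300 * (b + 1)) :=
    (prod_le_prod hM0 hM).trans (herr.trans (pow_le_pow_right₀ hZ1 (by omega)))
  have herrL : ∏ j ∈ s, ∑ i ∈ range (bpar B r j + 1), es (P j) ω i
        + ∑ l ∈ s, es (P l) ω (bpar B r l + 1)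
          * ∏ j ∈ s.erase l, ∑ i ∈ range (bpar B r j + 1), es (P j) ω i
      ≤ (Z r : ℝ) ^ (300 * (b + 1)) := by
    have k1 : ∏ j ∈ s, ∑ i ∈ range (bpar B r j + 1), es (P j) ω i
        + ∑ l ∈ s, es (P l) ω (bpar B r l + 1)
          * ∏ j ∈ s.erase l, ∑ i ∈ range (bpar B r j + 1), es (P j) ω i
        ≤ (∏ j ∈ s, (1 + ∑ p ∈ P j, ω p) ^ bpar B r j) * (1 + ∑ l ∈ s, (1 + ∑ p ∈ P l, ω p)) := by
      rw [mul_add, mul_one, mul_sum]
      refine add_le_add (prod_le_prod hM0 hM) (sum_le_sum fun l hl => ?_)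
      have hWl := hW0 l
      rw [← mul_prod_erase s (fun j => (1 + ∑ p ∈ P j, ω p) ^ bpar B r j) hl]
      calc es (P l) ω (bpar B r l + 1)
            * ∏ j ∈ s.erase l, ∑ i ∈ range (bpar B r j + 1), es (P j) ω i
          ≤ (1 + ∑ p ∈ P l, ω p) ^ (bpar B r l + 1)
            * ∏ j ∈ s.erase l, (1 + ∑ p ∈ P j, ω p) ^ bpar B r j :=
            mul_le_mul (es_le_pow _ _ (fun p _ => hω0 p) _)
              (prod_le_prod (fun j hj => hM0 j (erase_subset _ _ hj))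
                (fun j hj => hM j (erase_subset _ _ hj)))
              (prod_nonneg fun j hj => hM0 j (erase_subset _ _ hj)) (by positivity)
        _ = _ := by rw [pow_succ]; ring
    have hsum0 : 0 ≤ 1 + ∑ l ∈ s, (1 + ∑ p ∈ P l, ω p) := by
      have : 0 ≤ ∑ l ∈ s, (1 + ∑ p ∈ P l, ω p) :=
        sum_nonneg fun l _ => add_nonneg zero_le_one (hW0 l)
      linarith
    have k2 : (∏ j ∈ s, (1 + ∑ p ∈ P j, ω p) ^ bpar B r j)
        * (1 + ∑ l ∈ s, (1 + ∑ p ∈ P l, ω p)) ≤ (Z r : ℝ) ^ (2 * (4 * B + 4) + 3) := by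
      rw [pow_add]
      exact mul_le_mul herr hsum hsum0 (by positivity)
    exact k1.trans (k2.trans (pow_le_pow_right₀ hZ1 (by omega)))
  have up := upper A a h X g ω P (bpar B r) s ha h0 h1 hdisj hA' hb
  have lo := lower A a h X g ω P (bpar B r) s ha h0 h1 hdisj hA' hb
  have u1 := mul_le_mul_of_nonneg_left keyU hX
  have l1 := mul_le_mul_of_nonneg_left keyL hX
  simp only [hprod]
  constructor
  · refine le_trans ?_ lo
    have : (1 - (1 / 4 : ℝ) ^ b) * X * ∏ j ∈ s, ∏ p ∈ P j, (1 - g p)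
        = X * ((1 - (1 / 4 : ℝ) ^ b) * ∏ j ∈ s, ∏ p ∈ P j, (1 - g p)) := by ring
    rw [this]
    linarith
  · refine up.trans ?_
    have : (1 + (1 / 4 : ℝ) ^ b) * X * ∏ j ∈ s, ∏ p ∈ P j, (1 - g p)
        = X * ((1 + (1 / 4 : ℝ) ^ b) * ∏ j ∈ s, ∏ p ∈ P j, (1 - g p)) := by ring
    rw [this]
    linarith


theorem FL2 : FL2_stmt := by
  refine ⟨300, ?_⟩
  intro b r α S a h X ω ha h0 h1 hX hω0 hω hωp hA
  exact FL2_fund b r S a h X ω ha h0 h1 hX hω0 hω hωp hA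

end Pool.Agent.FI
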